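import Pool.Agent.H93.RW.Kill

/-!
From the filters to the filters modulo waves (MP_c59857_nt): on one window, if a short filter of
`f` is near to a sum of `R` waves, then a longer filter of `f` of `ℓ²` norm at least one is small.
-/

set_option autoImplicit false

namespace Pool.Agent.H93.RW

open Finset Polynomial

/-- the shift -/
noncomputable def sh : Module.End ℂ (ℕ → ℂ) where
  toFun f := fun n => f (n + 1)
  map_add' _ _ := rfl
  map_smul' _ _ := rfl

lemma sh_pow (i : ℕ) : ∀ (f : ℕ → ℂ) (n : ℕ), (sh ^ i) f n = f (n + i) := by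
  induction i with
  | zero => intro f n; simp
  | succ i ih =>
    intro f n
    rw [pow_succ, Module.End.mul_apply, ih]
    show f (n + i + 1) = f (n + (i + 1))
    rfl

/-- the action of a polynomial on a sequence -/
noncomputable def act (P : ℂ[X]) (f : ℕ → ℂ) : ℕ → ℂ := aeval sh P f

lemma act_mul (P A : ℂ[X]) (f : ℕ → ℂ) : act (P * A) f = act P (act A f) := by
  unfold act
  rw [map_mul, Module.End.mul_apply]

lemma act_eq (P : ℂ[X]) (f : ℕ → ℂ) (N n : ℕ) (hN : P.natDegree < N) :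
    act P f n = ∑ i ∈ range N, P.coeff i * f (n + i) := by
  unfold act
  rw [aeval_eq_sum_range' hN, LinearMap.sum_apply, Finset.sum_apply]
  apply sum_congr rfl
  intro i _
  rw [LinearMap.smul_apply, Pi.smul_apply, sh_pow, smul_eq_mul]

lemma act_sub (P : ℂ[X]) (f g : ℕ → ℂ) : act P (fun n => f n - g n) = fun n => act P f n - act P g n := by
  unfold act
  have : (fun n => f n - g n) = f - g := rfl
  rw [this, map_sub]
  rfl

/-- a polynomial kills the waves at its roots -/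
lemma act_wave (P : ℂ[X]) (R : ℕ) (b : ℕ → ℂ) (β : ℕ → ℝ)
    (hP : ∀ r < R, P.eval (ex (β r)) = 0) (n : ℕ) :
    act P (fun m => ∑ r ∈ range R, b r * ex (β r) ^ m) n = 0 := by
  rw [act_eq P _ (P.natDegree + 1) n (by omega)]
  have h1 : ∀ i ∈ range (P.natDegree + 1), P.coeff i * ∑ r ∈ range R, b r * ex (β r) ^ (n + i) =
      ∑ r ∈ range R, b r * ex (β r) ^ n * (P.coeff i * ex (β r) ^ i) := by
    intro i _
    rw [mul_sum]
    apply sum_congr rfl
    intro r _
    rw [pow_add]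
    ring
  rw [sum_congr rfl h1, sum_comm]
  apply sum_eq_zero
  intro r hr
  rw [← mul_sum, ← eval_eq_sum_range, hP r (mem_range.1 hr), mul_zero]

/-- a polynomial bounded by one on the circle is a contraction on windows -/
lemma act_le (P : ℂ[X]) (J L : ℕ) (hP : ∀ z : ℂ, ‖z‖ = 1 → ‖P.eval z‖ ≤ 1)
    (hJ : P.natDegree ≤ J) (hL : J + 1 ≤ L) (E : ℕ → ℂ) :
    ∑ x ∈ range (L - J), ‖act P E x‖ ^ 2 ≤ ∑ x ∈ range L, ‖E x‖ ^ 2 := by
  have : NeZero L := ⟨by omega⟩
  have hM : (0 : ℝ) < L := by exact_mod_cast NeZero.pos L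
  set g : ZMod L → ℂ := fun x => E x.val with hg
  have h1 := Pool.Agent.H93.RZ.pars_filter g J (fun j => P.coeff j) 1
  have h2 := Pool.Agent.H93.RZ.pars_part g ∅
  simp only [sum_empty, sub_zero, compl_empty] at h2
  have h3 : ∀ ξ : ZMod L, ‖∑ h ∈ range (J + 1), P.coeff h *
      (ZMod.stdAddChar (ξ * ((1 * h : ℕ) : ZMod L)) : ℂ)‖ ≤ 1 := by
    intro ξ
    have h4 : ∑ h ∈ range (J + 1), P.coeff h *
        (ZMod.stdAddChar (ξ * ((1 * h : ℕ) : ZMod L)) : ℂ) =
        P.eval (ZMod.stdAddChar ξ : ℂ) := by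
      rw [eval_eq_sum_range' (Nat.lt_succ_of_le hJ)]
      apply sum_congr rfl
      intro h _
      congr 1
      rw [one_mul, ← AddChar.map_nsmul_eq_pow, nsmul_eq_mul, mul_comm]
    rw [h4]
    exact hP _ (Pool.Agent.H93.RZ.norm_chi ξ)
  have h5 : (∑ x : ZMod L, ‖∑ h ∈ range (J + 1), P.coeff h *
      g (x + ((1 * h : ℕ) : ZMod L))‖ ^ 2) / L ≤ (∑ x : ZMod L, ‖g x‖ ^ 2) / L := by
    rw [h1, h2]
    apply sum_le_sum
    intro ξ _
    have h6 : ‖∑ h ∈ range (J + 1), P.coeff h *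
        (ZMod.stdAddChar (ξ * ((1 * h : ℕ) : ZMod L)) : ℂ)‖ ^ 2 ≤ 1 :=
      pow_le_one₀ (norm_nonneg _) (h3 ξ)
    have h7 : 0 ≤ ‖Pool.Agent.H93.RZ.gh g ξ‖ ^ 2 := by positivity
    nlinarith
  rw [div_le_div_iff_of_pos_right hM] at h5
  have h8 : ∑ x : ZMod L, ‖g x‖ ^ 2 = ∑ x ∈ range L, ‖E x‖ ^ 2 := by
    obtain ⟨k, hk⟩ : ∃ k, L = k + 1 := ⟨L - 1, by omega⟩
    subst hk
    exact Fin.sum_univ_eq_sum_range (fun j => ‖E j‖ ^ 2) (k + 1)
  rw [h8] at h5
  refine le_trans ?_ h5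
  -- the places without wrap-around
  have h9 : ∑ x ∈ range (L - J), ‖act P E x‖ ^ 2 =
      ∑ x ∈ (range (L - J)).image (fun x : ℕ => (x : ZMod L)), ‖∑ h ∈ range (J + 1), P.coeff h *
        g (x + ((1 * h : ℕ) : ZMod L))‖ ^ 2 := by
    rw [sum_image]
    · apply sum_congr rfl
      intro x hx
      rw [mem_range] at hx
      rw [act_eq P E (J + 1) x (by omega)]
      congr 2
      apply sum_congr rfl
      intro h hh
      rw [mem_range] at hh
      congr 1
      rw [hg]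
      dsimp only
      rw [one_mul, ← Nat.cast_add, ZMod.val_cast_of_lt (by omega)]
    · intro x hx y hy hxy
      have hx' := mem_range.1 (mem_coe.1 hx)
      have hy' := mem_range.1 (mem_coe.1 hy)
      have := congrArg ZMod.val hxy
      simp only at this
      rwa [ZMod.val_cast_of_lt (by omega), ZMod.val_cast_of_lt (by omega)] at this
  rw [h9]
  exact sum_le_sum_of_subset_of_nonneg (subset_univ _) (fun _ _ _ => by positivity)

/-- the polynomial of a filter -/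
noncomputable def pol (H : ℕ) (a : ℕ → ℂ) : ℂ[X] := ∑ h ∈ range (H + 1), C (a h) * X ^ h

lemma pol_coeff (H : ℕ) (a : ℕ → ℂ) (k : ℕ) (hk : k ∈ range (H + 1)) : (pol H a).coeff k = a k := by
  unfold pol
  rw [finsetSum_coeff]
  simp only [coeff_C_mul_X_pow]
  rw [sum_ite_eq (range (H + 1)) k, if_pos hk]

lemma pol_deg (H : ℕ) (a : ℕ → ℂ) : (pol H a).natDegree ≤ H := by
  unfold pol
  refine natDegree_sum_le_of_forall_le _ _ fun j hj => ?_
  refine (natDegree_C_mul_X_pow_le _ _).trans ?_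
  rw [mem_range] at hj
  omega

/-- **Filters modulo waves.** -/
theorem wav (H R : ℕ) (ε : ℝ) (hε : 0 < ε) : ∃ H' L₁ : ℕ, ∀ L : ℕ, L₁ ≤ L → ∀ f : ℕ → ℂ,
    (∀ n, ‖f n‖ ≤ 1) → ∀ (n : ℕ) (a : ℕ → ℂ), 1 ≤ ∑ h ∈ range (H + 1), ‖a h‖ ^ 2 →
    ∀ (b : ℕ → ℂ) (β : ℕ → ℝ), ∃ a' : ℕ → ℂ, 1 ≤ ∑ h ∈ range (H' + 1), ‖a' h‖ ^ 2 ∧
      (∑ m ∈ Icc 1 L, ‖∑ h ∈ range (H' + 1), a' h * f (n + m + h)‖ ^ 2) / L ≤
      (1 + ε) * ((∑ m ∈ Icc 1 L, ‖∑ h ∈ range (H + 1), a h * f (n + m + h) -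
        ∑ r ∈ range R, b r * Complex.exp (2 * Real.pi * Complex.I * (β r * m))‖ ^ 2) / L) + ε := by
  -- parameters
  obtain ⟨ε', hε'0, hε'1, hε'2⟩ : ∃ ε' : ℝ, 0 < ε' ∧ ε' ≤ 1 / 2 ∧ 1 ≤ (1 + ε) * (1 - ε') := by
    refine ⟨min (1 / 2) (ε / (1 + ε)), by positivity, min_le_left _ _, ?_⟩
    have h1 : min (1 / 2) (ε / (1 + ε)) ≤ ε / (1 + ε) := min_le_right _ _
    have h2 : (1 + ε) * (ε / (1 + ε)) = ε := by field_simp
    nlinarith
  obtain ⟨J, hJ⟩ := kill R H ε' hε'0 (by linarith)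
  obtain ⟨L₁, hL₁⟩ : ∃ L₁ : ℕ, 2 * (J : ℝ) * ((H : ℝ) + J + 1) / ε + J + 1 ≤ L₁ := exists_nat_ge _
  refine ⟨H + J, L₁, ?_⟩
  intro L hL f hf n a ha b β
  have hLr : 2 * (J : ℝ) * ((H : ℝ) + J + 1) / ε + J + 1 ≤ L :=
    hL₁.trans (by exact_mod_cast hL)
  have hLJ : J + 1 ≤ L := by
    have h1 : 0 ≤ 2 * (J : ℝ) * ((H : ℝ) + J + 1) / ε := by positivity
    have h2 : ((J : ℝ) + 1) ≤ L := by linarith
    exact_mod_cast h2
  have hL0 : (0 : ℝ) < L := by
    have : 0 < L := by omega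
    exact_mod_cast this
  obtain ⟨P, hP1, hP2, hP3, hP4⟩ := hJ β
  -- normalisation
  set N := ∑ h ∈ range (H + 1), ‖a h‖ ^ 2 with hN
  have hN0 : 0 < N := lt_of_lt_of_le one_pos ha
  have hs : 0 < Real.sqrt N := Real.sqrt_pos.2 hN0
  have hs2 : Real.sqrt N ^ 2 = N := Real.sq_sqrt hN0.le
  set A : ℂ[X] := pol H (fun h => a h / (Real.sqrt N : ℂ)) with hA
  have hAd : A.natDegree ≤ H := pol_deg H _
  have hAn : ∀ M, H + 1 ≤ M → nn A M = 1 := by
    intro M hM
    rw [nn_mono A (N := H + 1) (by omega) hM]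
    unfold nn
    have h1 : ∀ k ∈ range (H + 1), ‖A.coeff k‖ ^ 2 = ‖a k‖ ^ 2 / N := by
      intro k hk
      rw [hA, pol_coeff H _ k hk, norm_div, Complex.norm_real, Real.norm_of_nonneg hs.le, div_pow,
        hs2]
    rw [sum_congr rfl h1, ← sum_div, ← hN, div_self hN0.ne']
  have hPA : (P * A).natDegree ≤ H + J := by
    have := natDegree_mul_le (p := P) (q := A)
    omega
  have hlow := hP4 A hAd (H + J + 1) (by omega)
  have hup := nn_mul_le P A (H + J + 1) hP2 (by omega) (by omega)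
  rw [hAn _ (by omega)] at hlow hup
  rw [mul_one] at hlow
  set s := Real.sqrt (1 - ε') with hs'
  have hs0 : 0 < s := Real.sqrt_pos.2 (by linarith)
  have hss : s ^ 2 = 1 - ε' := Real.sq_sqrt (by linarith)
  refine ⟨fun h => (P * A).coeff h / (s : ℂ), ?_, ?_⟩
  · have h1 : ∀ h ∈ range (H + J + 1), ‖(P * A).coeff h / (s : ℂ)‖ ^ 2 =
        ‖(P * A).coeff h‖ ^ 2 / (1 - ε') := by
      intro h _
      rw [norm_div, Complex.norm_real, Real.norm_of_nonneg hs0.le, div_pow, hss]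
    rw [sum_congr rfl h1, ← sum_div, le_div_iff₀ (by linarith), one_mul]
    exact hlow
  · -- the filtered sequence
    set E : ℕ → ℂ := fun m => ∑ h ∈ range (H + 1), a h * f (n + (m + 1) + h) -
      ∑ r ∈ range R, b r * Complex.exp (2 * Real.pi * Complex.I * (β r * ((m + 1 : ℕ) : ℂ)))
      with hE
    set F : ℕ → ℂ := fun m => f (n + (m + 1)) with hF
    have hEA : ∀ m, E m / (Real.sqrt N : ℂ) = act A F m -
        ∑ r ∈ range R, (b r * ex (β r) / (Real.sqrt N : ℂ)) * ex (β r) ^ m := by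
      intro m
      rw [act_eq A F (H + 1) m (by omega), hE]
      dsimp only
      rw [sub_div, sum_div, sum_div]
      congr 1
      · apply sum_congr rfl
        intro k hk
        rw [hA, pol_coeff H _ k hk, hF]
        dsimp only
        have : n + (m + k + 1) = n + (m + 1) + k := by omega
        rw [this]
        ring
      · apply sum_congr rfl
        intro r _
        rw [← ex_pow, pow_succ]
        ring
    have hPE : ∀ m, act P (fun m => E m / (Real.sqrt N : ℂ)) m = act (P * A) F m := by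
      intro m
      have h1 : (fun m => E m / (Real.sqrt N : ℂ)) = fun m => act A F m -
          ∑ r ∈ range R, (b r * ex (β r) / (Real.sqrt N : ℂ)) * ex (β r) ^ m := by
        funext m
        exact hEA m
      rw [h1, act_sub, act_mul]
      dsimp only
      rw [act_wave P R _ β hP3, sub_zero]
    have hmain := act_le P J L hP2 hP1 hLJ (fun m => E m / (Real.sqrt N : ℂ))
    simp only [hPE] at hmain
    have hE1 : ∑ x ∈ range L, ‖E x / (Real.sqrt N : ℂ)‖ ^ 2 ≤ ∑ x ∈ range L, ‖E x‖ ^ 2 := by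
      apply sum_le_sum
      intro x _
      rw [norm_div, Complex.norm_real, Real.norm_of_nonneg hs.le, div_pow, hs2]
      exact div_le_self (by positivity) ha
    -- both sides as sums over `range L`
    have hsh : ∀ G : ℕ → ℝ, ∑ m ∈ Icc 1 L, G m = ∑ m ∈ range L, G (m + 1) := by
      intro G
      rw [range_eq_Ico, sum_Ico_add' G 0 L 1]
      apply sum_congr _ (fun _ _ => rfl)
      ext x
      simp only [mem_Icc, mem_Ico]
      omega
    rw [hsh (fun m => ‖∑ h ∈ range (H + J + 1), (P * A).coeff h / (s : ℂ) * f (n + m + h)‖ ^ 2),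
      hsh (fun m => ‖∑ h ∈ range (H + 1), a h * f (n + m + h) -
        ∑ r ∈ range R, b r * Complex.exp (2 * Real.pi * Complex.I * (β r * m))‖ ^ 2)]
    have hG : ∀ m, ‖∑ h ∈ range (H + J + 1), (P * A).coeff h / (s : ℂ) *
        f (n + (m + 1) + h)‖ ^ 2 = ‖act (P * A) F m‖ ^ 2 / (1 - ε') := by
      intro m
      rw [act_eq (P * A) F (H + J + 1) m (by omega), ← hss, ← Real.norm_of_nonneg hs0.le,
        ← Complex.norm_real, ← div_pow, ← norm_div, sum_div]
      congr 2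
      apply sum_congr rfl
      intro k _
      rw [hF]
      dsimp only
      have : n + (m + k + 1) = n + (m + 1) + k := by omega
      rw [this, Complex.norm_real, Real.norm_of_nonneg hs0.le]
      ring
    have hub : ∀ m, ‖act (P * A) F m‖ ^ 2 ≤ (H : ℝ) + J + 1 := by
      intro m
      rw [act_eq (P * A) F (H + J + 1) m (by omega)]
      have h1 : ‖∑ i ∈ range (H + J + 1), (P * A).coeff i * F (m + i)‖ ≤
          ∑ i ∈ range (H + J + 1), ‖(P * A).coeff i‖ * 1 := by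
        refine (norm_sum_le _ _).trans (sum_le_sum fun i _ => ?_)
        rw [norm_mul]
        exact mul_le_mul_of_nonneg_left (hf _) (norm_nonneg _)
      have h2 : (∑ i ∈ range (H + J + 1), ‖(P * A).coeff i‖ * 1) ^ 2 ≤
          (∑ i ∈ range (H + J + 1), ‖(P * A).coeff i‖ ^ 2) *
            ∑ i ∈ range (H + J + 1), (1 : ℝ) ^ 2 := sum_mul_sq_le_sq_mul_sq _ _ _
      have h3 : ∑ i ∈ range (H + J + 1), ‖(P * A).coeff i‖ ^ 2 = nn (P * A) (H + J + 1) := rfl
      rw [h3] at h2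
      calc _ ≤ (∑ i ∈ range (H + J + 1), ‖(P * A).coeff i‖ * 1) ^ 2 :=
            pow_le_pow_left₀ (norm_nonneg _) h1 2
        _ ≤ nn (P * A) (H + J + 1) * ∑ i ∈ range (H + J + 1), (1 : ℝ) ^ 2 := h2
        _ ≤ 1 * ∑ i ∈ range (H + J + 1), (1 : ℝ) ^ 2 :=
            mul_le_mul_of_nonneg_right hup (by positivity)
        _ = _ := by simp
    have hε1 : (0 : ℝ) < 1 - ε' := by linarith
    have hEs : ∀ m, ‖∑ h ∈ range (H + 1), a h * f (n + (m + 1) + h) -
        ∑ r ∈ range R, b r * Complex.exp (2 * Real.pi * Complex.I *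
          (β r * ((m + 1 : ℕ) : ℂ)))‖ ^ 2 = ‖E m‖ ^ 2 := fun m => rfl
    rw [sum_congr rfl fun m _ => hG m, sum_congr rfl fun m _ => hEs m, ← sum_div]
    have hsplit : ∑ m ∈ range L, ‖act (P * A) F m‖ ^ 2 ≤
        ∑ m ∈ range L, ‖E m‖ ^ 2 + J * ((H : ℝ) + J + 1) := by
      have h1 : L = (L - J) + J := by omega
      rw [h1, sum_range_add, ← h1]
      have h2 : ∑ x ∈ range J, ‖act (P * A) F (L - J + x)‖ ^ 2 ≤ J * ((H : ℝ) + J + 1) := by
        calc _ ≤ ∑ x ∈ range J, ((H : ℝ) + J + 1) := sum_le_sum fun _ _ => hub _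
          _ = _ := by rw [sum_const, card_range, nsmul_eq_mul]
      linarith
    have h6 : (∑ m ∈ range L, ‖act (P * A) F m‖ ^ 2) / (1 - ε') ≤
        (1 + ε) * ∑ m ∈ range L, ‖E m‖ ^ 2 + 2 * J * ((H : ℝ) + J + 1) := by
      rw [div_le_iff₀ hε1]
      have h7 : 0 ≤ ∑ m ∈ range L, ‖E m‖ ^ 2 := by positivity
      have h8 : 0 ≤ (J : ℝ) * ((H : ℝ) + J + 1) := by positivity
      have h9 : ∑ m ∈ range L, ‖E m‖ ^ 2 ≤ (1 + ε) * (1 - ε') * ∑ m ∈ range L, ‖E m‖ ^ 2 := by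
        nlinarith
      nlinarith
    have h7 : 2 * J * ((H : ℝ) + J + 1) ≤ ε * L := by
      have h8 : 2 * (J : ℝ) * ((H : ℝ) + J + 1) / ε ≤ L := by
        have : (0 : ℝ) ≤ J := Nat.cast_nonneg _
        linarith
      rw [div_le_iff₀ hε] at h8
      linarith
    rw [div_le_iff₀ hL0]
    have h8 : ((1 + ε) * ((∑ m ∈ range L, ‖E m‖ ^ 2) / L) + ε) * L =
        (1 + ε) * ∑ m ∈ range L, ‖E m‖ ^ 2 + ε * L := by
      field_simp
    rw [h8]
    linarith

end Pool.Agent.H93.RW
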