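import Pool.Agent.H93.RZ.Four

/-!
Polynomials which are bounded by one on the unit circle, vanish at given points of the unit circle
and do not decrease the `ℓ²` norm of short filters (MP_c59857_nt).
-/

set_option autoImplicit false

namespace Pool.Agent.H93.RW

open Finset Polynomial

/-- the point of the unit circle -/
noncomputable def ex (β : ℝ) : ℂ := Complex.exp (2 * Real.pi * Complex.I * β)

lemma norm_ex (β : ℝ) : ‖ex β‖ = 1 := by
  unfold ex
  rw [Complex.norm_exp]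
  simp

lemma ex_pow (β : ℝ) (k : ℕ) : ex β ^ k = Complex.exp (2 * Real.pi * Complex.I * (β * k)) := by
  unfold ex
  rw [← Complex.exp_nat_mul]
  congr 1
  ring

/-- the square of the `ℓ²` norm of the coefficients -/
noncomputable def nn (A : ℂ[X]) (N : ℕ) : ℝ := ∑ k ∈ range N, ‖A.coeff k‖ ^ 2

lemma nn_mono (A : ℂ[X]) {N N' : ℕ} (h : A.natDegree < N) (h' : N ≤ N') : nn A N' = nn A N := by
  unfold nn
  refine (sum_subset (range_mono h') fun k hk hk' => ?_).symm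
  rw [coeff_eq_zero_of_natDegree_lt (by rw [mem_range] at hk'; omega)]
  simp

lemma eval_chi {M : ℕ} [NeZero M] (A : ℂ[X]) (hA : A.natDegree < M) (x : ZMod M) :
    ∑ b : ZMod M, A.coeff b.val * ZMod.stdAddChar (b * x) = A.eval (ZMod.stdAddChar x : ℂ) := by
  rw [eval_eq_sum_range' hA]
  have h1 : ∀ b : ZMod M, A.coeff b.val * (ZMod.stdAddChar (b * x) : ℂ) =
      A.coeff b.val * (ZMod.stdAddChar x : ℂ) ^ b.val := by
    intro b
    congr 1
    rw [← AddChar.map_nsmul_eq_pow]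
    congr 1
    rw [nsmul_eq_mul, ZMod.natCast_zmod_val]
  rw [sum_congr rfl fun b _ => h1 b]
  obtain ⟨k, rfl⟩ : ∃ k, M = k + 1 := ⟨M - 1, by have := NeZero.pos M; omega⟩
  exact Fin.sum_univ_eq_sum_range (fun j => A.coeff j * (ZMod.stdAddChar x : ℂ) ^ j) (k + 1)

/-- Parseval for polynomials -/
lemma pars {M : ℕ} [NeZero M] (A : ℂ[X]) (hA : A.natDegree < M) :
    ∑ x : ZMod M, ‖A.eval (ZMod.stdAddChar x : ℂ)‖ ^ 2 = M * nn A M := by
  have h1 := Pool.Agent.H87.ES.parseval (p := M) (fun b => A.coeff b.val)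
  simp only [eval_chi A hA] at h1
  rw [h1]
  congr 1
  unfold nn
  obtain ⟨k, rfl⟩ : ∃ k, M = k + 1 := ⟨M - 1, by have := NeZero.pos M; omega⟩
  exact Fin.sum_univ_eq_sum_range (fun j => ‖A.coeff j‖ ^ 2) (k + 1)

/-- polynomials bounded by one on the unit circle are contractions -/
lemma nn_mul_le (P A : ℂ[X]) (N : ℕ) (hP : ∀ z : ℂ, ‖z‖ = 1 → ‖P.eval z‖ ≤ 1)
    (hN : (P * A).natDegree < N) (hN' : A.natDegree < N) : nn (P * A) N ≤ nn A N := by
  have : NeZero N := ⟨by omega⟩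
  have hM : (0 : ℝ) < N := by exact_mod_cast NeZero.pos N
  have h1 := pars (M := N) (P * A) hN
  have h2 := pars (M := N) A hN'
  have h3 : ∑ x : ZMod N, ‖(P * A).eval (ZMod.stdAddChar x : ℂ)‖ ^ 2 ≤
      ∑ x : ZMod N, ‖A.eval (ZMod.stdAddChar x : ℂ)‖ ^ 2 := by
    apply sum_le_sum
    intro x _
    rw [eval_mul, norm_mul, mul_pow]
    have h4 := hP _ (Pool.Agent.H93.RZ.norm_chi x)
    have h5 : ‖P.eval (ZMod.stdAddChar x : ℂ)‖ ^ 2 ≤ 1 := pow_le_one₀ (norm_nonneg _) h4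
    have h6 : 0 ≤ ‖A.eval (ZMod.stdAddChar x : ℂ)‖ ^ 2 := by positivity
    nlinarith
  rw [h1, h2] at h3
  exact le_of_mul_le_mul_left h3 hM

/-- the averaging polynomial -/
noncomputable def sp (D : ℕ) (β : ℝ) : ℂ[X] :=
  ∑ j ∈ range D, C ((D : ℂ)⁻¹ * (starRingEnd ℂ) (ex β) ^ j) * X ^ j

/-- the reversed conjugate of the averaging polynomial -/
noncomputable def tp (D : ℕ) (β : ℝ) : ℂ[X] :=
  ∑ j ∈ range D, C ((D : ℂ)⁻¹ * ex β ^ j) * X ^ (D - 1 - j)

/-- the polynomial which kills one wave -/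
noncomputable def kp (D : ℕ) (β : ℝ) : ℂ[X] := X ^ (D - 1) - tp D β * sp D β

lemma eval_sp (D : ℕ) (β : ℝ) (z : ℂ) :
    (sp D β).eval z = ∑ j ∈ range D, (D : ℂ)⁻¹ * (starRingEnd ℂ) (ex β) ^ j * z ^ j := by
  unfold sp
  rw [eval_finsetSum]
  apply sum_congr rfl
  intro j _
  simp

lemma conj_mul_one {z : ℂ} (hz : ‖z‖ = 1) : (starRingEnd ℂ) z * z = 1 := by
  rw [mul_comm, Complex.mul_conj']
  rw [hz]
  norm_num

lemma eval_tp (D : ℕ) (β : ℝ) (z : ℂ) (hz : ‖z‖ = 1) :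
    (tp D β).eval z = z ^ (D - 1) * (starRingEnd ℂ) ((sp D β).eval z) := by
  rw [eval_sp, map_sum, mul_sum]
  unfold tp
  rw [eval_finsetSum]
  apply sum_congr rfl
  intro j hj
  rw [mem_range] at hj
  simp only [eval_mul, eval_C, eval_pow, eval_X, map_mul, map_pow, map_inv₀,
    Complex.conj_conj, Complex.conj_natCast]
  have h1 : z ^ (D - 1) * (starRingEnd ℂ) z ^ j = z ^ (D - 1 - j) := by
    have h2 : z ^ (D - 1) = z ^ (D - 1 - j) * z ^ j := by
      rw [← pow_add]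
      congr 1
      omega
    rw [h2, mul_assoc, ← mul_pow, mul_comm z, conj_mul_one hz, one_pow, mul_one]
  calc _ = (D : ℂ)⁻¹ * ex β ^ j * (z ^ (D - 1) * (starRingEnd ℂ) z ^ j) := by rw [h1]
    _ = _ := by ring

lemma norm_sp_le (D : ℕ) (hD : 0 < D) (β : ℝ) (z : ℂ) (hz : ‖z‖ = 1) :
    ‖(sp D β).eval z‖ ≤ 1 := by
  rw [eval_sp]
  refine (norm_sum_le _ _).trans ?_
  have hD0 : (0 : ℝ) < D := by exact_mod_cast hD
  have h1 : ∀ j ∈ range D, ‖(D : ℂ)⁻¹ * (starRingEnd ℂ) (ex β) ^ j * z ^ j‖ = (D : ℝ)⁻¹ := by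
    intro j _
    rw [norm_mul, norm_mul, norm_pow, norm_pow, RCLike.norm_conj, norm_ex, hz, norm_inv,
      Complex.norm_natCast]
    simp
  rw [sum_congr rfl h1, sum_const, card_range, nsmul_eq_mul, mul_inv_cancel₀ hD0.ne']

lemma eval_kp (D : ℕ) (β : ℝ) (z : ℂ) (hz : ‖z‖ = 1) :
    (kp D β).eval z = z ^ (D - 1) * ((1 - ‖(sp D β).eval z‖ ^ 2 : ℝ) : ℂ) := by
  unfold kp
  rw [eval_sub, eval_mul, eval_pow, eval_X, eval_tp D β z hz]
  have h1 : (starRingEnd ℂ) ((sp D β).eval z) * (sp D β).eval z =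
      ((‖(sp D β).eval z‖ ^ 2 : ℝ) : ℂ) := by
    rw [mul_comm, Complex.mul_conj']
    push_cast
    rfl
  rw [mul_assoc, h1]
  push_cast
  ring

lemma norm_kp (D : ℕ) (hD : 0 < D) (β : ℝ) (z : ℂ) (hz : ‖z‖ = 1) :
    ‖(kp D β).eval z‖ = 1 - ‖(sp D β).eval z‖ ^ 2 := by
  rw [eval_kp D β z hz, norm_mul, norm_pow, hz, one_pow, one_mul, Complex.norm_real,
    Real.norm_of_nonneg]
  have := norm_sp_le D hD β z hz
  have h2 : ‖(sp D β).eval z‖ ^ 2 ≤ 1 := pow_le_one₀ (norm_nonneg _) this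
  linarith

lemma kp_root (D : ℕ) (hD : 0 < D) (β : ℝ) : (kp D β).eval (ex β) = 0 := by
  rw [eval_kp D β _ (norm_ex β)]
  have h1 : (sp D β).eval (ex β) = 1 := by
    rw [eval_sp]
    have hD0 : (D : ℂ) ≠ 0 := by exact_mod_cast hD.ne'
    have h2 : ∀ j ∈ range D, (D : ℂ)⁻¹ * (starRingEnd ℂ) (ex β) ^ j * ex β ^ j = (D : ℂ)⁻¹ := by
      intro j _
      rw [mul_assoc, ← mul_pow, conj_mul_one (norm_ex β), one_pow, mul_one]
    rw [sum_congr rfl h2, sum_const, card_range, nsmul_eq_mul, mul_inv_cancel₀ hD0]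
  rw [h1]
  simp

lemma deg_sp (D : ℕ) (β : ℝ) : (sp D β).natDegree ≤ D - 1 := by
  unfold sp
  refine natDegree_sum_le_of_forall_le _ _ fun j hj => ?_
  refine (natDegree_C_mul_X_pow_le _ _).trans ?_
  rw [mem_range] at hj
  omega

lemma deg_tp (D : ℕ) (β : ℝ) : (tp D β).natDegree ≤ D - 1 := by
  unfold tp
  refine natDegree_sum_le_of_forall_le _ _ fun j hj => ?_
  refine (natDegree_C_mul_X_pow_le _ _).trans ?_
  omega

lemma deg_kp (D : ℕ) (β : ℝ) : (kp D β).natDegree ≤ 2 * D := by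
  unfold kp
  refine (natDegree_sub_le _ _).trans (max_le ?_ ?_)
  · rw [natDegree_X_pow]
    omega
  · refine natDegree_mul_le.trans ?_
    have h1 := deg_sp D β
    have h2 := deg_tp D β
    omega

lemma nn_sp (D : ℕ) (hD : 0 < D) (β : ℝ) (N : ℕ) (hN : D ≤ N) : nn (sp D β) N = (D : ℝ)⁻¹ := by
  have hD0 : (0 : ℝ) < D := by exact_mod_cast hD
  have h1 := deg_sp D β
  rw [nn_mono (sp D β) (N := D) (by omega) hN]
  unfold nn
  have h2 : ∀ k ∈ range D, ‖(sp D β).coeff k‖ ^ 2 = ((D : ℝ)⁻¹) ^ 2 := by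
    intro k hk
    unfold sp
    rw [finsetSum_coeff]
    simp only [coeff_C_mul_X_pow]
    rw [sum_ite_eq (range D) k, if_pos hk, norm_mul, norm_pow, RCLike.norm_conj, norm_ex, one_pow,
      mul_one, norm_inv, Complex.norm_natCast]
  rw [sum_congr rfl h2, sum_const, card_range, nsmul_eq_mul]
  field_simp

/-- the sup norm of a short filter -/
lemma eval_sq_le (A : ℂ[X]) (H N : ℕ) (hA : A.natDegree ≤ H) (hN : H + 1 ≤ N) (z : ℂ)
    (hz : ‖z‖ = 1) : ‖A.eval z‖ ^ 2 ≤ ((H : ℝ) + 1) * nn A N := by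
  rw [nn_mono A (N := H + 1) (by omega) hN, eval_eq_sum_range' (Nat.lt_succ_of_le hA)]
  have h1 : ‖∑ i ∈ range (H + 1), A.coeff i * z ^ i‖ ≤ ∑ i ∈ range (H + 1), ‖A.coeff i‖ * 1 := by
    refine (norm_sum_le _ _).trans (sum_le_sum fun i _ => ?_)
    rw [norm_mul, norm_pow, hz, one_pow]
  have h2 : (∑ i ∈ range (H + 1), ‖A.coeff i‖ * 1) ^ 2 ≤
      (∑ i ∈ range (H + 1), ‖A.coeff i‖ ^ 2) * ∑ i ∈ range (H + 1), (1 : ℝ) ^ 2 :=
    sum_mul_sq_le_sq_mul_sq _ _ _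
  calc _ ≤ (∑ i ∈ range (H + 1), ‖A.coeff i‖ * 1) ^ 2 := pow_le_pow_left₀ (norm_nonneg _) h1 2
    _ ≤ _ := h2
    _ = _ := by
      unfold nn
      simp
      ring

/-- one wave: the norm of a short filter is almost kept -/
lemma one_wave (D H : ℕ) (hD : 0 < D) (β : ℝ) (A : ℂ[X]) (hA : A.natDegree ≤ H) (N : ℕ)
    (hN : H + 2 * D + 1 ≤ N) :
    (1 - 2 * ((H : ℝ) + 1) / D) * nn A N ≤ nn (kp D β * A) N := by
  have : NeZero N := ⟨by omega⟩
  have hM : (0 : ℝ) < N := by exact_mod_cast NeZero.pos N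
  have hd : (kp D β * A).natDegree < N := by
    have := (natDegree_mul_le (p := kp D β) (q := A))
    have := deg_kp D β
    omega
  have h1 := pars (M := N) (kp D β * A) hd
  have h2 := pars (M := N) A (by omega)
  have h3 := pars (M := N) (sp D β) (by have := deg_sp D β; omega)
  rw [nn_sp D hD β N (by omega)] at h3
  have h4 : ∀ x : ZMod N, ‖A.eval (ZMod.stdAddChar x : ℂ)‖ ^ 2 -
      2 * (((H : ℝ) + 1) * nn A N) * ‖(sp D β).eval (ZMod.stdAddChar x : ℂ)‖ ^ 2 ≤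
      ‖(kp D β * A).eval (ZMod.stdAddChar x : ℂ)‖ ^ 2 := by
    intro x
    have hx := Pool.Agent.H93.RZ.norm_chi x
    rw [eval_mul, norm_mul, mul_pow, norm_kp D hD β _ hx]
    have h5 := eval_sq_le A H N hA (by omega) _ hx
    have h6 : 0 ≤ ‖(sp D β).eval (ZMod.stdAddChar x : ℂ)‖ ^ 2 := by positivity
    have h7 : 0 ≤ ‖A.eval (ZMod.stdAddChar x : ℂ)‖ ^ 2 := by positivity
    set u := ‖(sp D β).eval (ZMod.stdAddChar x : ℂ)‖ ^ 2
    set v := ‖A.eval (ZMod.stdAddChar x : ℂ)‖ ^ 2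
    have h8 : v - 2 * v * u ≤ (1 - u) ^ 2 * v := by nlinarith [mul_nonneg h7 (sq_nonneg u)]
    have h9 : v * u ≤ (((H : ℝ) + 1) * nn A N) * u := mul_le_mul_of_nonneg_right h5 h6
    linarith
  have h5 := sum_le_sum (s := univ) fun x _ => h4 x
  rw [sum_sub_distrib, ← mul_sum, h1, h2, h3] at h5
  have h6 : (N : ℝ) * nn A N - 2 * (((H : ℝ) + 1) * nn A N) * (N * (D : ℝ)⁻¹) =
      N * ((1 - 2 * ((H : ℝ) + 1) / D) * nn A N) := by ring
  rw [h6] at h5
  exact le_of_mul_le_mul_left h5 hM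

/-- all waves -/
theorem kill (R : ℕ) : ∀ (H : ℕ) (ε : ℝ), 0 < ε → ε < 1 → ∃ J : ℕ, ∀ β : ℕ → ℝ, ∃ P : ℂ[X],
    P.natDegree ≤ J ∧ (∀ z : ℂ, ‖z‖ = 1 → ‖P.eval z‖ ≤ 1) ∧ (∀ r < R, P.eval (ex (β r)) = 0) ∧
    ∀ A : ℂ[X], A.natDegree ≤ H → ∀ N, H + J + 1 ≤ N → (1 - ε) * nn A N ≤ nn (P * A) N := by
  induction R with
  | zero =>
    intro H ε hε _
    refine ⟨0, fun β => ⟨1, by simp, by simp, by simp, fun A _ N _ => ?_⟩⟩
    rw [one_mul]
    have : 0 ≤ nn A N := by unfold nn; positivity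
    nlinarith
  | succ R ih =>
    intro H ε hε hε1
    obtain ⟨J, hJ⟩ := ih H (ε / 2) (by positivity) (by linarith)
    obtain ⟨D, hD⟩ : ∃ D : ℕ, 4 * ((H : ℝ) + J + 1) / ε ≤ D := exists_nat_ge _
    have hD0 : (0 : ℝ) < D := lt_of_lt_of_le (by positivity) hD
    have hDn : 0 < D := by exact_mod_cast hD0
    refine ⟨J + 2 * D, fun β => ?_⟩
    obtain ⟨P, hP1, hP2, hP3, hP4⟩ := hJ β
    refine ⟨kp D (β R) * P, ?_, ?_, ?_, ?_⟩
    · have h1 := natDegree_mul_le (p := kp D (β R)) (q := P)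
      have h2 := deg_kp D (β R)
      omega
    · intro z hz
      rw [eval_mul, norm_mul]
      refine mul_le_one₀ ?_ (norm_nonneg _) (hP2 z hz)
      rw [norm_kp D hDn (β R) z hz]
      have : 0 ≤ ‖(sp D (β R)).eval z‖ ^ 2 := by positivity
      linarith
    · intro r hr
      rw [eval_mul]
      rcases Nat.lt_succ_iff_lt_or_eq.1 hr with h | h
      · rw [hP3 r h, mul_zero]
      · rw [h, kp_root D hDn, zero_mul]
    · intro A hA N hN
      have h1 := hP4 A hA N (by omega)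
      have hdeg : (P * A).natDegree ≤ H + J := by
        have := natDegree_mul_le (p := P) (q := A)
        omega
      have h2 := one_wave D (H + J) hDn (β R) (P * A) hdeg N (by omega)
      rw [mul_assoc]
      have h3 : 2 * (((H + J : ℕ) : ℝ) + 1) / D ≤ ε / 2 := by
        rw [div_le_iff₀ hD0]
        rw [div_le_iff₀ hε] at hD
        push_cast
        linarith
      have h4 : 0 ≤ nn (P * A) N := by unfold nn; positivity
      have h5 : 0 ≤ nn A N := by unfold nn; positivity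
      have h6 : (1 - ε / 2) * nn (P * A) N ≤ nn (kp D (β R) * (P * A)) N := by
        refine le_trans ?_ h2
        apply mul_le_mul_of_nonneg_right _ h4
        linarith
      refine le_trans ?_ h6
      have h7 : (1 - ε / 2) * ((1 - ε / 2) * nn A N) ≤ (1 - ε / 2) * nn (P * A) N :=
        mul_le_mul_of_nonneg_left h1 (by linarith)
      refine le_trans ?_ h7
      have h8 : (1 - ε) ≤ (1 - ε / 2) * (1 - ε / 2) := by nlinarith
      calc (1 - ε) * nn A N ≤ ((1 - ε / 2) * (1 - ε / 2)) * nn A N :=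
            mul_le_mul_of_nonneg_right h8 h5
        _ = _ := by ring

end Pool.Agent.H93.RW
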